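import Pool.Agent.Results.MP_1fec7a_co.DisproofQ1

/-!
# MP_1fec7a_co, Q1: the chromatic number exceeds `max (H(g)) (ω(G) + 1)` by a constant factor

The graphs are the joins of a complete graph with many 5-cycles.
-/

namespace Pool.Agent.Results.MP_1fec7a_co.ProportionalGap

open SimpleGraph
open Pool.Agent.Results.MP_1fec7a_co.DisproofQ1

/-- The join of `n / 5` disjoint 5-cycles, the blocks of five consecutive vertices. -/
def XX (n : ℕ) (a b : Fin n) : Prop :=
  a.val / 5 ≠ b.val / 5 ∨ (a.val % 5 + 1) % 5 = b.val % 5 ∨ (b.val % 5 + 1) % 5 = a.val % 5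

theorem XX_symm {n : ℕ} {a b : Fin n} (h : XX n a b) : XX n b a := by
  unfold XX at h ⊢
  omega

theorem XX_irrefl {n : ℕ} (a : Fin n) : ¬ XX n a a := by
  unfold XX
  omega

/-- The join of `K_r` with `n / 5` pairwise joined 5-cycles. -/
def GG (r n : ℕ) : SimpleGraph (Fin r ⊕ Fin n) where
  Adj u v := match u, v with
    | Sum.inl i, Sum.inl j => i ≠ j
    | Sum.inl _, Sum.inr _ => True
    | Sum.inr _, Sum.inl _ => True
    | Sum.inr a, Sum.inr b => XX n a b
  symm := ⟨fun u v => by
    rcases u with i | a <;> rcases v with j | b <;> simp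
    · exact fun h => Ne.symm h
    · exact XX_symm⟩
  loopless := ⟨fun u => by
    rcases u with i | a <;> simp
    exact XX_irrefl a⟩

/-- Index type of the hyperedges. -/
abbrev Ix (r n : ℕ) : Type :=
  Unit ⊕ (Fin r × Fin n) ⊕ {p : Fin n × Fin n // p.1 < p.2 ∧ XX n p.1 p.2}

/-- One hyperedge is the vertex set of `K_r`; every other edge of the graph is a hyperedge with two
elements. -/
def EE (r n : ℕ) : Ix r n → Finset (Fin r ⊕ Fin n)
  | Sum.inl _ => Finset.univ.image Sum.inl
  | Sum.inr (Sum.inl (i, a)) => {Sum.inl i, Sum.inr a}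
  | Sum.inr (Sum.inr q) => {Sum.inr q.1.1, Sum.inr q.1.2}

theorem mem_pair' {r n : ℕ} (q : {p : Fin n × Fin n // p.1 < p.2 ∧ XX n p.1 p.2}) (a b : Fin n)
    (hab : a ≠ b) (h1 : (Sum.inr a : Fin r ⊕ Fin n) ∈ EE r n (Sum.inr (Sum.inr q)))
    (h2 : (Sum.inr b : Fin r ⊕ Fin n) ∈ EE r n (Sum.inr (Sum.inr q))) :
    q.1 = (min a b, max a b) ∧ XX n a b := by
  obtain ⟨⟨p, s⟩, hlt, hp⟩ := q
  simp only [EE, Finset.mem_insert, Finset.mem_singleton, Sum.inr.injEq] at h1 h2
  simp only at hlt hp
  have : (a = p ∧ b = s) ∨ (a = s ∧ b = p) := by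
    rcases h1 with h1 | h1 <;> rcases h2 with h2 | h2
    · exact absurd (h1.trans h2.symm) hab
    · exact Or.inl ⟨h1, h2⟩
    · exact Or.inr ⟨h1, h2⟩
    · exact absurd (h1.trans h2.symm) hab
  rcases this with ⟨rfl, rfl⟩ | ⟨rfl, rfl⟩
  · exact ⟨by simp [min_eq_left hlt.le, max_eq_right hlt.le], hp⟩
  · exact ⟨by simp [min_eq_right hlt.le, max_eq_left hlt.le], XX_symm hp⟩

theorem adjacencyIs' (r n : ℕ) : AdjacencyIs (EE r n) (GG r n) := by
  intro u v huv
  constructor
  · intro h
    rcases u with i | a <;> rcases v with j | b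
    · refine mult_one (Sum.inl ()) (by simp [EE]) (by simp [EE]) ?_
      rintro (x | ⟨i', a'⟩ | q) h1 h2 <;> simp_all [EE]
    · refine mult_one (Sum.inr (Sum.inl (i, b))) (by simp [EE]) (by simp [EE]) ?_
      rintro (x | ⟨i', a'⟩ | q) h1 h2 <;> simp_all [EE]
    · refine mult_one (Sum.inr (Sum.inl (j, a))) (by simp [EE]) (by simp [EE]) ?_
      rintro (x | ⟨i', a'⟩ | q) h1 h2 <;> simp_all [EE]
    · have hX : XX n a b := h
      have hab : a ≠ b := fun h => huv (by rw [h])
      have hlt : min a b < max a b := min_lt_max.mpr hab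
      have hX' : XX n (min a b) (max a b) := by
        rcases le_total a b with hle | hle
        · rw [min_eq_left hle, max_eq_right hle]; exact hX
        · rw [min_eq_right hle, max_eq_left hle]; exact XX_symm hX
      refine mult_one (Sum.inr (Sum.inr ⟨(min a b, max a b), hlt, hX'⟩)) ?_ ?_ ?_
      · rcases le_total a b with hle | hle <;> simp [EE, hle]
      · rcases le_total a b with hle | hle <;> simp [EE, hle]
      · rintro (x | ⟨i', a'⟩ | q) h1 h2
        · simp [EE] at h1
        · simp only [EE, Finset.mem_insert, Finset.mem_singleton, reduceCtorEq, false_or,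
            Sum.inr.injEq] at h1 h2
          exact absurd (h1.trans h2.symm) hab
        · have := (mem_pair' q a b hab h1 h2).1
          congr 2
          exact Subtype.ext this
  · intro h
    rcases u with i | a <;> rcases v with j | b
    · exact absurd (fun h' => huv (by rw [h'])) h
    · exact absurd trivial h
    · exact absurd trivial h
    · have hX : ¬ XX n a b := h
      have hab : a ≠ b := fun h => huv (by rw [h])
      apply mult_zero
      rintro (x | ⟨i', a'⟩ | q) h1 h2
      · simp [EE] at h1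
      · simp only [EE, Finset.mem_insert, Finset.mem_singleton, reduceCtorEq, false_or,
            Sum.inr.injEq] at h1 h2
        exact hab (h1.trans h2.symm)
      · exact hX (mem_pair' q a b hab h1 h2).2

/-! ### Counting -/

theorem card_pairs (n : ℕ) :
    Nat.card {p : Fin n × Fin n // p.1 < p.2 ∧ XX n p.1 p.2} ≤ n.choose 2 := by
  classical
  have h1 : Nat.card (⊤ : SimpleGraph (Fin n)).edgeSet = n.choose 2 := by
    rw [Nat.card_eq_fintype_card, ← SimpleGraph.edgeFinset_card,
      SimpleGraph.card_edgeFinset_top_eq_card_choose_two, Fintype.card_fin]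
  rw [← h1]
  let f : {p : Fin n × Fin n // p.1 < p.2 ∧ XX n p.1 p.2} → (⊤ : SimpleGraph (Fin n)).edgeSet :=
    fun p => ⟨s(p.1.1, p.1.2), by
      rw [mem_edgeSet]
      exact p.2.1.ne⟩
  apply Nat.card_le_card_of_injective f
  rintro ⟨⟨a, b⟩, hab, hx⟩ ⟨⟨c, d⟩, hcd, hy⟩ h
  simp only at hab hcd
  have h2 : s(a, b) = s(c, d) := congrArg Subtype.val h
  rw [Sym2.eq_iff] at h2
  rcases h2 with ⟨rfl, rfl⟩ | ⟨rfl, rfl⟩
  · rfl
  · exact absurd (hab.trans hcd) (lt_irrefl _)

theorem card_EE (r n : ℕ) : Nat.card (Σ i : Ix r n, {v : Fin r ⊕ Fin n // v ∈ EE r n i}) =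
    r + 2 * (r * n) + 2 * Nat.card {p : Fin n × Fin n // p.1 < p.2 ∧ XX n p.1 p.2} := by
  classical
  rw [Nat.card_sigma]
  simp only [Nat.card_eq_fintype_card, Fintype.card_coe]
  rw [Fintype.sum_sum_type, Fintype.sum_sum_type]
  have h1 : ∀ x : Unit, (EE r n (Sum.inl x)).card = r := by
    intro x
    simp only [EE]
    rw [Finset.card_image_of_injective _ Sum.inl_injective]
    simp
  have h2 : ∀ x : Fin r × Fin n, (EE r n (Sum.inr (Sum.inl x))).card = 2 := by
    rintro ⟨i, a⟩
    simp only [EE]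
    rw [Finset.card_pair (by simp)]
  have h3 : ∀ x : {p : Fin n × Fin n // p.1 < p.2 ∧ XX n p.1 p.2},
      (EE r n (Sum.inr (Sum.inr x))).card = 2 := by
    rintro ⟨⟨a, b⟩, hlt, h⟩
    simp only [EE]
    rw [Finset.card_pair]
    simp only [ne_eq, Sum.inr.injEq]
    exact hlt.ne
  simp only [h1, h2, h3, Finset.sum_const, Finset.card_univ, smul_eq_mul]
  simp
  ring

theorem connected' {r n : ℕ} (hr : 0 < r) : (incidence (EE r n)).Connected := by
  have hbig : ∀ i : Fin r,
      (incidence (EE r n)).Reachable (Sum.inl (Sum.inl i)) (Sum.inr (Sum.inl ())) :=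
    fun i => (adj_inc (by simp [EE])).reachable
  have hmid : ∀ (i : Fin r) (a : Fin n), (incidence (EE r n)).Reachable
      (Sum.inr (Sum.inr (Sum.inl (i, a)))) (Sum.inr (Sum.inl ())) := fun i a =>
    (adj_inc (v := Sum.inl i) (i := Sum.inr (Sum.inl (i, a)))
      (by simp [EE])).symm.reachable.trans (hbig i)
  have hout : ∀ a : Fin n, (incidence (EE r n)).Reachable
      (Sum.inl (Sum.inr a)) (Sum.inr (Sum.inl ())) := fun a =>
    (adj_inc (v := Sum.inr a) (i := Sum.inr (Sum.inl (⟨0, hr⟩, a)))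
      (by simp [EE])).reachable.trans (hmid ⟨0, hr⟩ a)
  have hall : ∀ x, (incidence (EE r n)).Reachable x (Sum.inr (Sum.inl ())) := by
    rintro ((i | a) | (x | ⟨i, a⟩ | q))
    · exact hbig i
    · exact hout a
    · exact Reachable.refl _
    · exact hmid i a
    · exact (adj_inc (v := Sum.inr q.1.1) (i := Sum.inr (Sum.inr q))
        (by simp [EE])).symm.reachable.trans (hout q.1.1)
  exact { preconnected := fun x y => (hall x).trans (hall y).symm
          nonempty := ⟨Sum.inr (Sum.inl ())⟩ }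

theorem embeds' {r n g : ℕ} (hr : 0 < r) (hg : r * n + n.choose 2 ≤ n + 2 * g) :
    EmbedsInGenus (incidence (EE r n)) g := by
  refine embeds_of_connected _ (connected' hr) (Sum.inl (Sum.inl ⟨0, hr⟩)) (Sum.inr (Sum.inl ()))
    (adj_inc (by simp [EE])) _ ?_
  have h1 := card_incidence (EE r n)
  rw [card_EE] at h1
  have h2 : Nat.card ((Fin r ⊕ Fin n) ⊕ Ix r n) = r + n +
      (1 + (r * n + Nat.card {p : Fin n × Fin n // p.1 < p.2 ∧ XX n p.1 p.2})) := by
    simp [Nat.card_sum]
  have h3 := card_pairs n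
  omega

theorem exists_reducedGenus' {r n g : ℕ} (hr : 0 < r) (hg : r * n + n.choose 2 ≤ n + 2 * g) :
    ∃ g', g' ≤ g ∧ HasReducedGenus (GG r n) g' := by
  classical
  have h1 : ∃ h, EmbedsInGenus (incidence (EE r n)) h := ⟨g, embeds' hr hg⟩
  have h2 : HasGenus (incidence (EE r n)) (Nat.find h1) :=
    ⟨Nat.find_spec h1, fun b hb => Nat.find_min' h1 hb⟩
  have h3 : ∃ h, ∃ (ι : Type) (_ : Finite ι) (E : ι → Finset (Fin r ⊕ Fin n)),
      AdjacencyIs E (GG r n) ∧ HasGenus (incidence E) h :=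
    ⟨Nat.find h1, Ix r n, inferInstance, EE r n, adjacencyIs' r n, h2⟩
  refine ⟨Nat.find h3, ?_, Nat.find_spec h3, fun b hb => Nat.find_min' h3 hb⟩
  exact (Nat.find_min' h3 ⟨Ix r n, inferInstance, EE r n, adjacencyIs' r n, h2⟩).trans
    (Nat.find_min' h1 (embeds' hr hg))

/-! ### Clique number and chromatic number -/

theorem cliqueXX {m : ℕ} (s : Finset (Fin (5 * m)))
    (h : ∀ a ∈ s, ∀ b ∈ s, a ≠ b → XX (5 * m) a b) : s.card ≤ 2 * m := by
  classical
  have h1 : s.card = ∑ j ∈ Finset.range m, (s.filter fun a => a.val / 5 = j).card := by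
    apply Finset.card_eq_sum_card_fiberwise
    intro a _
    have := a.2
    rw [Finset.coe_range, Set.mem_Iio]
    show a.val / 5 < m
    omega
  rw [h1]
  have h2 : ∀ j ∈ Finset.range m, (s.filter fun a => a.val / 5 = j).card ≤ 2 := by
    intro j _
    by_contra hc
    push Not at hc
    obtain ⟨a, ha, b, hb, c, hc', hab, hac, hbc⟩ := Finset.two_lt_card.1 hc
    rw [Finset.mem_filter] at ha hb hc'
    have e1 := h a ha.1 b hb.1 hab
    have e2 := h a ha.1 c hc'.1 hac
    have e3 := h b hb.1 c hc'.1 hbc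
    unfold XX at e1 e2 e3
    have f1 : a.val ≠ b.val := fun e => hab (Fin.ext e)
    have f2 : a.val ≠ c.val := fun e => hac (Fin.ext e)
    have f3 : b.val ≠ c.val := fun e => hbc (Fin.ext e)
    omega
  refine (Finset.sum_le_sum h2).trans ?_
  simp [mul_comm]

theorem cliqueNum_le' (r m : ℕ) : (GG r (5 * m)).cliqueNum ≤ r + 2 * m := by
  classical
  obtain ⟨s, hs⟩ := (GG r (5 * m)).exists_isNClique_cliqueNum
  rw [← hs.card_eq]
  have h1 : s.toLeft.card ≤ r := by
    simpa using Finset.card_le_univ s.toLeft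
  have h2 : s.toRight.card ≤ 2 * m := by
    apply cliqueXX
    intro a ha b hb hab
    have := hs.isClique (Finset.mem_toRight.mp ha) (Finset.mem_toRight.mp hb)
      (by simpa using hab)
    exact this
  have h3 : s.toLeft.card + s.toRight.card = s.card := Finset.card_toLeft_add_card_toRight
  omega

theorem colorable_le {r m k : ℕ} (h : (GG r (5 * m)).Colorable k) : r + 3 * m ≤ k := by
  classical
  obtain ⟨c⟩ := h
  have hc : ∀ u v, (GG r (5 * m)).Adj u v → c u ≠ c v := fun u v h => c.valid h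
  let A : Finset (Fin k) := Finset.univ.image (fun i : Fin r => c (Sum.inl i))
  let f : Fin m → Fin 5 → Fin (5 * m) := fun j a => ⟨5 * j.val + a.val, by omega⟩
  let B : Fin m → Finset (Fin k) := fun j => Finset.univ.image (fun a : Fin 5 => c (Sum.inr (f j a)))
  have hA : A.card = r := by
    rw [Finset.card_image_of_injective]
    · simp
    · intro i j hij
      by_contra hne
      exact hc (Sum.inl i) (Sum.inl j) hne hij
  have hB : ∀ j, 3 ≤ (B j).card := by
    intro j
    apply three_colours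
    intro a
    apply hc
    show XX (5 * m) (f j a) (f j (a + 1))
    unfold XX
    right; left
    show ((5 * j.val + a.val) % 5 + 1) % 5 = (5 * j.val + (a + 1 : Fin 5).val) % 5
    fin_cases a <;> simp
  have hAB : Disjoint A (Finset.univ.biUnion B) := by
    rw [Finset.disjoint_left]
    intro x hx hy
    rw [Finset.mem_biUnion] at hy
    obtain ⟨j, -, hy⟩ := hy
    rw [Finset.mem_image] at hx hy
    obtain ⟨i, -, hi⟩ := hx
    obtain ⟨a, -, ha⟩ := hy
    exact hc (Sum.inl i) (Sum.inr (f j a)) trivial (hi.trans ha.symm)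
  have hBB : ∀ j ∈ (Finset.univ : Finset (Fin m)), ∀ j' ∈ (Finset.univ : Finset (Fin m)),
      j ≠ j' → Disjoint (B j) (B j') := by
    intro j _ j' _ hjj
    rw [Finset.disjoint_left]
    intro x hx hy
    rw [Finset.mem_image] at hx hy
    obtain ⟨a, -, ha⟩ := hx
    obtain ⟨b, -, hb⟩ := hy
    refine hc (Sum.inr (f j a)) (Sum.inr (f j' b)) ?_ (ha.trans hb.symm)
    show XX (5 * m) (f j a) (f j' b)
    unfold XX
    left
    show (5 * j.val + a.val) / 5 ≠ (5 * j'.val + b.val) / 5
    have h1 := a.2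
    have h2 := b.2
    have h3 : j.val ≠ j'.val := fun e => hjj (Fin.ext e)
    omega
  have h1 : (A ∪ Finset.univ.biUnion B).card = A.card + ∑ j, (B j).card := by
    rw [Finset.card_union_of_disjoint hAB, Finset.card_biUnion hBB]
  have h2 : (A ∪ Finset.univ.biUnion B).card ≤ k := by
    simpa using Finset.card_le_univ (A ∪ Finset.univ.biUnion B)
  have h3 : 3 * m ≤ ∑ j, (B j).card := by
    calc 3 * m = ∑ _j : Fin m, 3 := by simp [mul_comm]
      _ ≤ _ := Finset.sum_le_sum fun j _ => hB j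
  omega

theorem chromatic_ge' (r m : ℕ) : r + 3 * m ≤ ENat.toNat (GG r (5 * m)).chromaticNumber :=
  colorable_le (GG r (5 * m)).colorable_chromaticNumber_of_fintype

/-- The family: `χ ≥ 64 t`, while `max (H(g)) (ω + 1) ≤ 62 t + 1`. -/
theorem family (t : ℕ) (ht : 5 ≤ t) : ∃ (V : Type) (_ : Finite V) (G : SimpleGraph V) (g : ℕ),
    HasReducedGenus G g ∧ 64 * t ≤ ENat.toNat G.chromaticNumber ∧ G.cliqueNum ≤ 62 * t ∧
      heawood g ≤ 62 * (t : ℝ) + 1 := by
  have hn : 5 * (2 * t) = 10 * t := by ring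
  have hch : (5 * (2 * t)).choose 2 ≤ 50 * t ^ 2 := by
    rw [Nat.choose_two_right, hn]
    apply Nat.div_le_of_le_mul
    calc 10 * t * (10 * t - 1) ≤ 10 * t * (10 * t) := Nat.mul_le_mul_left _ (Nat.sub_le _ _)
      _ = 2 * (50 * t ^ 2) := by ring
  obtain ⟨g, hg, hred⟩ := exists_reducedGenus' (r := 58 * t) (n := 5 * (2 * t))
    (g := 315 * t ^ 2) (by omega) (by
      have : 58 * t * (5 * (2 * t)) = 580 * t ^ 2 := by ring
      omega)
  refine ⟨Fin (58 * t) ⊕ Fin (5 * (2 * t)), inferInstance, GG (58 * t) (5 * (2 * t)), g, hred,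
    ?_, ?_, ?_⟩
  · have := chromatic_ge' (58 * t) (2 * t)
    omega
  · have := cliqueNum_le' (58 * t) (2 * t)
    omega
  · unfold heawood
    have hg' : (g : ℝ) ≤ 315 * (t : ℝ) ^ 2 := by exact_mod_cast hg
    have ht' : (5 : ℝ) ≤ t := by exact_mod_cast ht
    have : √(1 + 48 * (g : ℝ)) ≤ 124 * (t : ℝ) - 5 := by
      rw [Real.sqrt_le_left (by linarith)]
      nlinarith
    linarith

/-- **Q1 has a negative answer, by a constant factor and an arbitrarily large constant.** For every
real number `b` there is a finite simple graph `G` of some reduced genus `g` with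
`χ(G) > 1.03 · max (H(g)) (ω(G) + 1) + b`. -/
theorem result (b : ℝ) : ∃ (V : Type) (_ : Finite V) (G : SimpleGraph V) (g : ℕ),
    HasReducedGenus G g ∧
      103 / 100 * max (heawood g) ((G.cliqueNum : ℝ) + 1) + b < ENat.toNat G.chromaticNumber := by
  obtain ⟨t, ht⟩ := exists_nat_gt (max 10 ((b + 2) / (7 / 50)))
  have ht1 : (10 : ℝ) < t := lt_of_le_of_lt (le_max_left _ _) ht
  have ht2 : b + 2 < t * (7 / 50) := by
    have := lt_of_le_of_lt (le_max_right _ _) ht
    rwa [div_lt_iff₀ (by norm_num)] at this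
  have ht3 : 5 ≤ t := by
    have : (5 : ℝ) ≤ t := by linarith
    exact_mod_cast this
  obtain ⟨V, hV, G, g, h1, h2, h3, h4⟩ := family t ht3
  have h2' : 64 * (t : ℝ) ≤ ENat.toNat G.chromaticNumber := by exact_mod_cast h2
  have h3' : (G.cliqueNum : ℝ) ≤ 62 * (t : ℝ) := by exact_mod_cast h3
  refine ⟨V, hV, G, g, h1, ?_⟩
  have h5 : max (heawood g) ((G.cliqueNum : ℝ) + 1) ≤ 62 * (t : ℝ) + 1 :=
    max_le h4 (by linarith)
  linarith

end Pool.Agent.Results.MP_1fec7a_co.ProportionalGap
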